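import Pool.Agent.helper21.KBR3.Chart
import Pool.Agent.helper45.KBR3.C3C6

/-!
Module C9: the two holomorphic extensions are inverse to each other.
-/

noncomputable section

namespace KBR

open Set MeasureTheory Filter Topology
open scoped ContDiff RealInnerProductSpace

variable {n m : ℕ}

namespace Glu

/-- a smooth function equal to `1` on the sphere and with positive radial derivative at `x0` is
less than `1` in the ball near `x0` -/
lemma radial {q : E n → ℝ} (hq : ContDiff ℝ 1 q) (h1 : ∀ x ∈ bM n, q x = 1) {x0 : E n}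
    (hx0 : x0 ∈ bM n) (hpos : 0 < fderiv ℝ q x0 x0) :
    ∃ ε > 0, ∀ x ∈ Metric.ball x0 ε, ‖x‖ < 1 → q x < 1 := by
  have hx0n : ‖x0‖ = 1 := by simpa [bM] using hx0
  have hc : Continuous (fun p : E n × E n => fderiv ℝ q p.1 p.2) := by
    have h2 : Continuous (fderiv ℝ q) := hq.continuous_fderiv (by simp)
    fun_prop
  have h3 : ∀ᶠ p : E n × E n in 𝓝 (x0, x0), 0 < fderiv ℝ q p.1 p.2 :=
    hc.continuousAt.eventually (lt_mem_nhds hpos)
  obtain ⟨ε, hε, h4⟩ := Metric.eventually_nhds_iff.1 h3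
  refine ⟨min (ε / 2) (1 / 2), by positivity, ?_⟩
  intro x hx hx1
  rw [Metric.mem_ball, dist_eq_norm] at hx
  have hxe : ‖x - x0‖ < ε / 2 := lt_of_lt_of_le hx (min_le_left _ _)
  have hxh : ‖x - x0‖ < 1 / 2 := lt_of_lt_of_le hx (min_le_right _ _)
  have h5 : 1 - ‖x‖ ≤ ‖x - x0‖ := by
    have := norm_sub_norm_le x0 x
    rw [hx0n, norm_sub_rev] at this
    exact this
  have hxp : 0 < ‖x‖ := by linarith
  set y : E n := (‖x‖)⁻¹ • x with hy
  have hyn : ‖y‖ = 1 := by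
    rw [hy, norm_smul, norm_inv, norm_norm, inv_mul_cancel₀ hxp.ne']
  have hxy : x = ‖x‖ • y := by
    rw [hy, smul_smul, mul_inv_cancel₀ hxp.ne', one_smul]
  have h6 : ∀ t, ‖x‖ ≤ t → t ≤ 1 → ‖t • y - x0‖ < ε := by
    intro t ht ht1
    have h7 : t • y - x0 = (t - ‖x‖) • y + (x - x0) := by
      rw [sub_smul, ← hxy]; abel
    have h8 : ‖(t - ‖x‖) • y‖ = t - ‖x‖ := by
      rw [norm_smul, hyn, mul_one, Real.norm_eq_abs, abs_of_nonneg (by linarith)]
    calc ‖t • y - x0‖ ≤ ‖(t - ‖x‖) • y‖ + ‖x - x0‖ := by rw [h7]; exact norm_add_le _ _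
      _ < ε := by rw [h8]; linarith
  have hyx : ‖y - x0‖ < ε := by
    have := h6 1 hx1.le le_rfl
    rwa [one_smul] at this
  have hder : ∀ t : ℝ, HasDerivAt (fun t : ℝ => q (t • y)) (fderiv ℝ q (t • y) y) t := by
    intro t
    have e1 : HasFDerivAt q (fderiv ℝ q (t • y)) (t • y) :=
      ((hq.differentiable (by simp)) _).hasFDerivAt
    have e2 : HasDerivAt (fun t : ℝ => t • y) y t := by
      simpa using (hasDerivAt_id t).smul_const y
    exact e1.comp_hasDerivAt t e2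
  obtain ⟨t, ht, ht2⟩ := exists_hasDerivAt_eq_slope (fun t : ℝ => q (t • y))
    (fun t => fderiv ℝ q (t • y) y) hx1
    (fun t _ => (hder t).continuousAt.continuousWithinAt) (fun t _ => hder t)
  have h7 : 0 < fderiv ℝ q (t • y) y := by
    refine h4 (y := (t • y, y)) ?_
    rw [Prod.dist_eq, max_lt_iff, dist_eq_norm, dist_eq_norm]
    exact ⟨h6 t ht.1.le ht.2.le, hyx⟩
  rw [ht2] at h7
  have h8 : 0 < 1 - ‖x‖ := by linarith
  have h9 : 0 < q ((1 : ℝ) • y) - q (‖x‖ • y) := by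
    have := mul_pos h7 h8
    rwa [div_mul_cancel₀ _ h8.ne'] at this
  rw [one_smul, ← hxy, h1 y (by simp [bM, hyn])] at h9
  linarith

/-- the composition of the two extensions is complex differentiable -/
lemma comp_diff {Φ₁ Φ₂ : E n → Cn m} {R₁ R₂ : Cn m → E n} {δ₁ δ₂ : ℝ}
    (h₁ : ExtChart Φ₁ R₁ δ₁) (h₂ : ExtChart Φ₂ R₂ δ₂) {U U' : E n → Cn m} (hU : ContDiff ℝ 1 U)
    (hU' : ContDiff ℝ 1 U') (hol : ∀ x ∈ M n, HolAt Φ₁ U x) (hol' : ∀ x ∈ M n, HolAt Φ₂ U' x)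
    {x p : E n} (hx : x ∈ M n) (hp : p ∈ M n) (hxp : U x = Φ₂ p) :
    DifferentiableAt ℂ (fun z => U' (R₂ (U (R₁ z))) - z) (Φ₁ x) := by
  have e1 : DifferentiableAt ℂ (fun z => U (R₁ z)) (Φ₁ x) :=
    h₁.differentiableAt_of_holAt (h₁.mem_of_M hx) ((hU.differentiable (by simp)) x) (hol x hx)
  have e2 : DifferentiableAt ℂ (fun z => U' (R₂ z)) (Φ₂ p) :=
    h₂.differentiableAt_of_holAt (h₂.mem_of_M hp) ((hU'.differentiable (by simp)) p) (hol' p hp)
  have e3 : U (R₁ (Φ₁ x)) = Φ₂ p := by rw [h₁.left x (h₁.mem_of_M hx), hxp]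
  rw [← e3] at e2
  exact (e2.comp (Φ₁ x) e1).sub differentiableAt_id

end Glu

open Glu

/-- MODULE C9 (`glue`): the two extensions are inverse to each other. -/
theorem glue (hn : 2 ≤ n) {Φ₁ Φ₂ : E n → Cn m} {R₁ R₂ : Cn m → E n} {δ₁ δ₂ : ℝ}
    (h₁ : ExtChart Φ₁ R₁ δ₁) (h₂ : ExtChart Φ₂ R₂ δ₂) (F F' : E n → E n →L[ℝ] E n)
    (hF : ∀ x ∈ bM n, ∀ v, F' x (F x v) = v)
    (hFn : ∀ x ∈ bM n, 0 < ⟪F x x, x⟫) {U U' : E n → Cn m} (hU : ContDiff ℝ 1 U)
    (hU' : ContDiff ℝ 1 U')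
    (hUb : ∀ x ∈ bM n, U x = Φ₂ x ∧ ∀ v, fderiv ℝ U x v = fderiv ℝ Φ₂ x (F x v))
    (hU'b : ∀ x ∈ bM n, U' x = Φ₁ x ∧ ∀ v, fderiv ℝ U' x v = fderiv ℝ Φ₁ x (F' x v))
    (hol : ∀ x ∈ M n, HolAt Φ₁ U x) (hol' : ∀ x ∈ M n, HolAt Φ₂ U' x) :
    ∀ x ∈ M n, R₂ (U x) ∈ M n ∧ Φ₂ (R₂ (U x)) = U x ∧ R₁ (U' (R₂ (U x))) = x := by
  have hUc := hU.continuous
  have hU'c := hU'.continuous
  have hR₁c := h₁.smoothR.continuous
  have hR₂c := h₂.smoothR.continuous
  have hball : ∀ x : E n, ‖x‖ < 1 → x ∈ M n := fun x hx => by simpa [M] using hx.le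
  -- values on the boundary
  have hψb : ∀ x ∈ bM n, R₂ (U x) = x := by
    intro x hx
    rw [(hUb x hx).1, h₂.left x (h₂.mem_of_M (bM_sub_M hx))]
  have hψs : ContDiff ℝ 1 (fun x => R₂ (U x)) := (h₂.smoothR.of_le (by simp)).comp hU
  have hψd : ∀ x ∈ bM n, HasFDerivAt (fun x => R₂ (U x)) (F x) x := by
    intro x hx
    have e1 : HasFDerivAt U (fderiv ℝ U x) x := ((hU.differentiable (by simp)) x).hasFDerivAt
    have e2 : HasFDerivAt R₂ (fderiv ℝ R₂ (Φ₂ x)) (U x) := by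
      rw [(hUb x hx).1]; exact h₂.dR _
    refine (e2.comp x e1).congr_fderiv ?_
    ext1 v
    rw [ContinuousLinearMap.comp_apply, (hUb x hx).2,
      h₂.left_deriv (h₂.mem_of_M (bM_sub_M hx))]
  -- a boundary point
  obtain ⟨x0, hx0⟩ : ∃ x0 : E n, x0 ∈ bM n :=
    ⟨EuclideanSpace.single ⟨0, by omega⟩ 1, by simp [bM]⟩
  have hx0n : ‖x0‖ = 1 := by simpa [bM] using hx0
  obtain ⟨ε, hε, hr⟩ := radial (q := fun x => ‖R₂ (U x)‖ ^ 2) (hψs.norm_sq ℝ)
    (by
      intro x hx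
      have hxn : ‖x‖ = 1 := by simpa [bM] using hx
      simp only [hψb x hx, hxn]
      norm_num) hx0
    (by
      have e1 := (hψd x0 hx0).norm_sq.fderiv
      rw [e1]
      have e2 := hFn x0 hx0
      rw [real_inner_comm] at e2
      simp only [_root_.smul_apply, ContinuousLinearMap.comp_apply,
        innerSL_apply_apply, hψb x0 hx0, nsmul_eq_mul]
      norm_num
      exact e2)
  -- near `x0`, `U` takes values in the chart `Φ₂`
  have hop₂ := h₂.isOpen
  have hev : ∀ᶠ x in 𝓝 x0, U x ∈ Φ₂ '' Metric.ball (0 : E n) (1 + δ₂) := by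
    apply hUc.continuousAt.eventually
    apply hop₂.mem_nhds
    rw [(hUb x0 hx0).1]
    exact ⟨x0, h₂.mem_of_M (bM_sub_M hx0), rfl⟩
  obtain ⟨ε', hε', hr'⟩ := Metric.eventually_nhds_iff_ball.1 hev
  have hδ₁ := h₁.pos
  set ρ := min (min ε ε') δ₁ with hρ
  have hρ0 : 0 < ρ := by positivity
  have hNε : Metric.ball x0 ρ ⊆ Metric.ball x0 ε :=
    Metric.ball_subset_ball ((min_le_left _ _).trans (min_le_left _ _))
  have hNε' : Metric.ball x0 ρ ⊆ Metric.ball x0 ε' :=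
    Metric.ball_subset_ball ((min_le_left _ _).trans (min_le_right _ _))
  have hND : Metric.ball x0 ρ ⊆ Metric.ball (0 : E n) (1 + δ₁) := by
    intro x hx
    rw [Metric.mem_ball, dist_eq_norm] at hx
    have h3 : ‖x‖ ≤ ‖x - x0‖ + ‖x0‖ := by
      simpa using norm_add_le (x - x0) x0
    rw [mem_ball_zero_iff]
    have h4 : ρ ≤ δ₁ := min_le_right _ _
    linarith
  have hNψ : ∀ x ∈ Metric.ball x0 ρ, ‖x‖ < 1 →
      ‖R₂ (U x)‖ < 1 ∧ U x = Φ₂ (R₂ (U x)) := by
    intro x hx hx1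
    constructor
    · have h3 := hr x (hNε hx) hx1
      have h4 : ‖R₂ (U x)‖ ^ 2 < 1 := h3
      nlinarith [norm_nonneg (R₂ (U x))]
    · exact (h₂.right (hr' x (hNε' hx))).symm
  -- step 1
  have hΦN : IsOpen (Φ₁ '' Metric.ball x0 ρ) := h₁.isOpen_image Metric.isOpen_ball hND
  have hΦNc : IsPreconnected (Φ₁ '' Metric.ball x0 ρ) :=
    (convex_ball x0 ρ).isPreconnected.image _ h₁.smooth.continuous.continuousOn
  set ht : Cn m → Cn m := fun z => if ‖R₁ z‖ ≤ 1 then U' (R₂ (U (R₁ z))) - z else 0 with hht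
  have hdiff : DifferentiableOn ℂ ht (Φ₁ '' Metric.ball x0 ρ) := by
    rintro z ⟨x, hx, rfl⟩
    apply DifferentiableAt.differentiableWithinAt
    have hR : R₁ (Φ₁ x) = x := h₁.left x (hND hx)
    rcases lt_trichotomy ‖x‖ 1 with hx1 | hx1 | hx1
    · obtain ⟨e1, e2⟩ := hNψ x hx hx1
      have e3 := comp_diff h₁ h₂ hU hU' hol hol' (hball x hx1) (hball _ e1) e2
      refine e3.congr_of_eventuallyEq ?_
      have e4 : ∀ᶠ z in 𝓝 (Φ₁ x), ‖R₁ z‖ < 1 :=
        (isOpen_lt hR₁c.norm continuous_const).mem_nhds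
          (show ‖R₁ (Φ₁ x)‖ < 1 by rw [hR]; exact hx1)
      filter_upwards [e4] with z hz
      simp only [hht, if_pos hz.le]
    · -- boundary point
      have hxb : x ∈ bM n := by simp [bM, hx1]
      have hxD := hND hx
      have e1 : HasFDerivAt (fun z => U' (R₂ (U (R₁ z))) - z) (0 : Cn m →L[ℝ] Cn m) (Φ₁ x) := by
        have f1 : HasFDerivAt R₁ (fderiv ℝ R₁ (Φ₁ x)) (Φ₁ x) := h₁.dR _
        have f2 : HasFDerivAt (fun x => R₂ (U x)) (F x) (R₁ (Φ₁ x)) := by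
          rw [hR]; exact hψd x hxb
        have f3 : HasFDerivAt U' (fderiv ℝ U' x) (R₂ (U (R₁ (Φ₁ x)))) := by
          rw [hR, hψb x hxb]; exact ((hU'.differentiable (by simp)) x).hasFDerivAt
        have f4 := (f3.comp (Φ₁ x) (f2.comp (Φ₁ x) f1)).sub (hasFDerivAt_id (Φ₁ x))
        refine HasFDerivAt.congr_fderiv f4 ?_
        ext1 v
        simp only [ContinuousLinearMap.comp_apply, _root_.sub_apply,
          ContinuousLinearMap.id_apply, _root_.zero_apply]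
        rw [(hU'b x hxb).2, hF x hxb, h₁.right_deriv' hxD, sub_self]
      have e2 : U' (R₂ (U (R₁ (Φ₁ x)))) - Φ₁ x = 0 := by
        rw [hR, hψb x hxb, (hU'b x hxb).1, sub_self]
      have e3 : HasFDerivAt ht (0 : Cn m →L[ℝ] Cn m) (Φ₁ x) := by
        rw [hasFDerivAt_iff_isLittleO_nhds_zero] at e1 ⊢
        refine Asymptotics.IsBigO.trans_isLittleO ?_ e1
        refine Asymptotics.isBigO_of_le _ ?_
        intro y
        have e4 : ht (Φ₁ x) = 0 := by
          simp only [hht]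
          rw [e2]; simp
        rw [e4]
        simp only [e2]
        by_cases hy : ‖R₁ (Φ₁ x + y)‖ ≤ 1
        · simp only [hht, if_pos hy]
          exact le_rfl
        · simp only [hht, if_neg hy]
          simp
      have e5 : HasFDerivAt ht (0 : Cn m →L[ℂ] Cn m) (Φ₁ x) :=
        hasFDerivAt_of_restrictScalars ℝ e3 rfl
      exact e5.differentiableAt
    · refine (differentiableAt_const (0 : Cn m)).congr_of_eventuallyEq ?_
      have e4 : ∀ᶠ z in 𝓝 (Φ₁ x), 1 < ‖R₁ z‖ :=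
        (isOpen_lt continuous_const hR₁c.norm).mem_nhds
          (show 1 < ‖R₁ (Φ₁ x)‖ by rw [hR]; exact hx1)
      filter_upwards [e4] with z hz
      simp only [hht, if_neg (not_le.2 hz)]
  have hstep1 : ∀ x ∈ Metric.ball x0 ρ, ‖x‖ ≤ 1 → U' (R₂ (U x)) = Φ₁ x := by
    -- a point outside
    set x1 : E n := (1 + ρ / 2) • x0 with hx1
    have hx1n : ‖x1‖ = 1 + ρ / 2 := by
      rw [hx1, norm_smul, hx0n, mul_one, Real.norm_eq_abs, abs_of_pos (by positivity)]
    have hx1N : x1 ∈ Metric.ball x0 ρ := by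
      rw [Metric.mem_ball, dist_eq_norm, hx1, add_smul, one_smul, add_sub_cancel_left, norm_smul,
        hx0n, mul_one, Real.norm_eq_abs, abs_of_pos (by positivity)]
      linarith
    have hzero : ht =ᶠ[𝓝 (Φ₁ x1)] 0 := by
      have e4 : ∀ᶠ z in 𝓝 (Φ₁ x1), 1 < ‖R₁ z‖ :=
        (isOpen_lt continuous_const hR₁c.norm).mem_nhds
          (show 1 < ‖R₁ (Φ₁ x1)‖ by rw [h₁.left x1 (hND hx1N), hx1n]; linarith)
      filter_upwards [e4] with z hz
      simp only [hht, if_neg (not_le.2 hz)]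
      rfl
    intro x hx hx1
    have e1 := id_thm hΦN hΦNc hdiff ⟨x1, hx1N, rfl⟩ hzero (Φ₁ x) ⟨x, hx, rfl⟩
    have hR : R₁ (Φ₁ x) = x := h₁.left x (hND hx)
    simp only [hht, hR, if_pos hx1] at e1
    exact sub_eq_zero.1 e1
  -- step 2
  have hop₂' : IsOpen (Φ₂ '' Metric.ball (0 : E n) 1) :=
    h₂.isOpen_image Metric.isOpen_ball (Metric.ball_subset_ball (by linarith [h₂.pos]))
  set S : Set (E n) := {x | ‖x‖ < 1 ∧ U x ∈ Φ₂ '' Metric.ball (0 : E n) 1 ∧
    ∀ᶠ y in 𝓝 x, U' (R₂ (U y)) = Φ₁ y} with hS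
  have hSopen : IsOpen S := by
    refine (isOpen_lt continuous_norm continuous_const).inter ?_
    refine (hop₂'.preimage hUc).inter ?_
    exact isOpen_setOfPred_eventually_nhds
  have hBsub : Metric.ball (0 : E n) 1 ⊆ S := by
    refine (convex_ball (0 : E n) 1).isPreconnected.subset_of_closure_inter_subset hSopen ?_ ?_
    · -- nonempty
      set τ : ℝ := min (ρ / 2) (1 / 2) with hτ
      have hτ0 : 0 < τ := by positivity
      have hτρ : τ ≤ ρ / 2 := min_le_left _ _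
      have hτ1 : τ ≤ 1 / 2 := min_le_right _ _
      set x2 : E n := (1 - τ) • x0 with hx2
      have hx2n : ‖x2‖ = 1 - τ := by
        rw [hx2, norm_smul, hx0n, mul_one, Real.norm_eq_abs, abs_of_pos (by linarith)]
      have hx2N : x2 ∈ Metric.ball x0 ρ := by
        rw [Metric.mem_ball, dist_eq_norm, hx2, sub_smul, one_smul, sub_sub_cancel_left, norm_neg,
          norm_smul, hx0n, mul_one, Real.norm_eq_abs, abs_of_pos hτ0]
        linarith
      have hx21 : ‖x2‖ < 1 := by rw [hx2n]; linarith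
      obtain ⟨e1, e2⟩ := hNψ x2 hx2N hx21
      refine ⟨x2, by simpa using hx21, hx21, ⟨_, by simpa using e1, e2.symm⟩, ?_⟩
      filter_upwards [Metric.isOpen_ball.mem_nhds hx2N,
        (isOpen_lt continuous_norm continuous_const).mem_nhds hx21] with y hy hy1
      exact hstep1 y hy (le_of_lt hy1)
    · -- closed
      rintro x ⟨hxc, hxB⟩
      have hx1 : ‖x‖ < 1 := by simpa using hxB
      have hxD : x ∈ Metric.ball (0 : E n) (1 + δ₁) := h₁.mem_of_M (hball x hx1)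
      -- `U x ∈ Φ₂ '' M`
      have hKcl : IsClosed (Φ₂ '' M n) :=
        ((isCompact_closedBall _ _).image h₂.smooth.continuous).isClosed
      have hUx : U x ∈ Φ₂ '' M n := by
        have e1 : closure S ⊆ U ⁻¹' (Φ₂ '' M n) := by
          refine closure_minimal ?_ (hKcl.preimage hUc)
          rintro y ⟨_, hy, _⟩
          exact image_mono Metric.ball_subset_closedBall hy
        exact e1 hxc
      have hid : U' (R₂ (U x)) = Φ₁ x := by
        have e1 : closure S ⊆ {y | U' (R₂ (U y)) = Φ₁ y} := by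
          refine closure_minimal ?_ (isClosed_eq (hU'c.comp (hR₂c.comp hUc))
            h₁.smooth.continuous)
          rintro y ⟨_, _, hy⟩
          exact hy.self_of_nhds
        exact e1 hxc
      obtain ⟨p, hp, hpx⟩ := hUx
      have hRp : R₂ (U x) = p := by rw [← hpx, h₂.left p (h₂.mem_of_M hp)]
      have hp1 : ‖p‖ < 1 := by
        have e1 : ‖p‖ ≤ 1 := by simpa [M] using hp
        refine lt_of_le_of_ne e1 fun e2 => ?_
        have hpb : p ∈ bM n := by simp [bM, e2]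
        rw [hRp, (hU'b p hpb).1] at hid
        have e3 : p = x := by
          rw [← h₁.left p (h₁.mem_of_M hp), hid, h₁.left x hxD]
        rw [← e3, e2] at hx1
        exact lt_irrefl _ hx1
      have hUx' : U x ∈ Φ₂ '' Metric.ball (0 : E n) 1 := ⟨p, by simpa using hp1, hpx⟩
      refine ⟨hx1, hUx', ?_⟩
      -- a small ball
      have e1 : ∀ᶠ y in 𝓝 x, ‖y‖ < 1 ∧ U y ∈ Φ₂ '' Metric.ball (0 : E n) 1 := by
        filter_upwards [(isOpen_lt continuous_norm continuous_const).mem_nhds hx1,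
          (hop₂'.preimage hUc).mem_nhds hUx'] with y a b using ⟨a, b⟩
      obtain ⟨σ, hσ, e2⟩ := Metric.eventually_nhds_iff_ball.1 e1
      have hσD : Metric.ball x σ ⊆ Metric.ball (0 : E n) (1 + δ₁) := fun y hy =>
        h₁.mem_of_M (hball y (e2 y hy).1)
      have hO : IsOpen (Φ₁ '' Metric.ball x σ) := h₁.isOpen_image Metric.isOpen_ball hσD
      have hOc : IsPreconnected (Φ₁ '' Metric.ball x σ) :=
        (convex_ball x σ).isPreconnected.image _ h₁.smooth.continuous.continuousOn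
      have hd : DifferentiableOn ℂ (fun z => U' (R₂ (U (R₁ z))) - z) (Φ₁ '' Metric.ball x σ) := by
        rintro z ⟨y, hy, rfl⟩
        obtain ⟨f1, q, hq, f2⟩ := e2 y hy
        exact (comp_diff h₁ h₂ hU hU' hol hol' (hball y f1) (hball q (by simpa using hq))
          f2.symm).differentiableWithinAt
      obtain ⟨x3, hx3, hx3S⟩ := mem_closure_iff_nhds.1 hxc _ (Metric.ball_mem_nhds x hσ)
      have hx3D := hσD hx3
      have hz : (fun z => U' (R₂ (U (R₁ z))) - z) =ᶠ[𝓝 (Φ₁ x3)] 0 := by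
        have f0 : Tendsto R₁ (𝓝 (Φ₁ x3)) (𝓝 x3) := by
          have := hR₁c.tendsto (Φ₁ x3)
          rwa [h₁.left x3 hx3D] at this
        have f1 : ∀ᶠ z in 𝓝 (Φ₁ x3), U' (R₂ (U (R₁ z))) = Φ₁ (R₁ z) :=
          f0.eventually hx3S.2.2
        filter_upwards [f1, hO.mem_nhds ⟨x3, hx3, rfl⟩] with z hz hz2
        show U' (R₂ (U (R₁ z))) - z = 0
        rw [hz, h₁.right (image_mono hσD hz2), sub_self]
      filter_upwards [Metric.ball_mem_nhds x hσ] with y hy
      have f2 := id_thm hO hOc hd ⟨x3, hx3, rfl⟩ hz (Φ₁ y) ⟨y, hy, rfl⟩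
      simp only [h₁.left y (hσD hy)] at f2
      exact sub_eq_zero.1 f2
  intro x hx
  have hx1 : ‖x‖ ≤ 1 := by simpa [M] using hx
  rcases lt_or_eq_of_le hx1 with hx1 | hx1
  · obtain ⟨_, ⟨p, hp, hpx⟩, e3⟩ := hBsub (by simpa using hx1 : x ∈ Metric.ball (0 : E n) 1)
    have hpM : p ∈ M n := Metric.ball_subset_closedBall hp
    have hRp : R₂ (U x) = p := by rw [← hpx, h₂.left p (h₂.mem_of_M hpM)]
    have e4 := e3.self_of_nhds
    refine ⟨by rw [hRp]; exact hpM, by rw [hRp, hpx], ?_⟩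
    rw [e4, h₁.left x (h₁.mem_of_M hx)]
  · have hxb : x ∈ bM n := by simp [bM, hx1]
    rw [hψb x hxb]
    refine ⟨hx, (hUb x hxb).1.symm, ?_⟩
    rw [(hU'b x hxb).1, h₁.left x (h₁.mem_of_M hx)]

end KBR
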