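import Pool.Agent.helper15.KBR3.SecondOrder
import Pool.Agent.helper41.KBR3.CP
import Pool.Agent.helper45.KBR3.C3C6

/-!
Module C7: holomorphic extension from the boundary (Hartogs-Bochner), `C¹` up to the boundary.
-/

noncomputable section

namespace KBR

open Set MeasureTheory Filter Topology
open scoped ContDiff RealInnerProductSpace

variable {n m : ℕ}

namespace Htg

/-- multiplication by `i` -/
def mulI (m : ℕ) : Cn m →L[ℝ] Cn m :=
  (ContinuousLinearMap.lsmul ℂ ℂ (Complex.I) : Cn m →L[ℂ] Cn m).restrictScalars ℝ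

lemma mulI_apply (v : Cn m) : mulI m v = Complex.I • v := rfl

/-- a real linear map commuting with `i` is complex linear -/
lemma exists_complex (B : Cn m →L[ℝ] ℂ) (hB : ∀ v, B (Complex.I • v) = Complex.I * B v) :
    ∃ A : Cn m →L[ℂ] ℂ, ∀ v, A v = B v := by
  have hsm : ∀ (c : ℂ) v, B (c • v) = c * B v := by
    intro c v
    have h1 : c • v = c.re • v + c.im • (Complex.I • v) := by
      have h2 : (c.im : ℝ) • (Complex.I • v) = ((c.im : ℂ) * Complex.I) • v := by
        rw [mul_smul]; rfl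
      have h3 : (c.re : ℝ) • v = (c.re : ℂ) • v := rfl
      rw [h2, h3, ← add_smul, Complex.re_add_im]
    rw [h1, map_add, map_smul, map_smul, hB]
    rw [Complex.real_smul, Complex.real_smul, ← mul_assoc, ← add_mul, Complex.re_add_im]
  exact ⟨{ toFun := B, map_add' := B.map_add, map_smul' := hsm, cont := B.cont }, fun v => rfl⟩

/-- the derivative of `|R z|^2 / 2` -/
lemma hasFDerivAt_r {R : Cn m → E n} {z : Cn m} (hR : HasFDerivAt R (fderiv ℝ R z) z) :
    HasFDerivAt (fun z => (‖R z‖ ^ 2 - 1) / 2) ((innerSL ℝ (R z)).comp (fderiv ℝ R z)) z := by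
  have h1 := (hR.norm_sq.sub_const 1).const_mul (1 / 2 : ℝ)
  have h2 : (fun z => (‖R z‖ ^ 2 - 1) / 2) = fun z => (1 / 2 : ℝ) * (‖R z‖ ^ 2 - 1) := by
    funext z; ring
  rw [h2]
  refine h1.congr_fderiv ?_
  ext v
  simp

/-- derivative of the evaluation at a fixed vector -/
lemma eval_fderiv {f : Cn m → Cn m →L[ℝ] ℂ} {z : Cn m} {f' : Cn m →L[ℝ] Cn m →L[ℝ] ℂ}
    (h : HasFDerivAt f f' z) (v : Cn m) : HasFDerivAt (fun y => f y v) (f'.flip v) z := by
  have h1 := ((ContinuousLinearMap.apply ℝ ℂ v).hasFDerivAt (x := f z)).comp z h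
  exact h1

/-- a smooth function vanishing on the sphere has no tangential derivative -/
lemma tangential {g : E n → ℂ} {x : E n} (hx : x ∈ bM n) {g' : E n →L[ℝ] ℂ}
    (hg : HasFDerivAt g g' x) (h0 : ∀ y ∈ bM n, g y = 0) (w : E n) :
    g' w = (⟪x, w⟫ : ℝ) * g' x := by
  have hxn : ‖x‖ = 1 := by simpa [bM] using hx
  -- unit tangent vectors
  have hunit : ∀ v : E n, ‖v‖ = 1 → ⟪x, v⟫ = 0 → g' v = 0 := by
    intro v hv hxv
    have h1 : HasDerivAt (fun s => g (BQ.gc x v s)) (g' v) 0 := by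
      have h2 : HasFDerivAt g g' (BQ.gc x v 0) := by rw [BQ.gc_zero]; exact hg
      exact h2.comp_hasDerivAt 0 (BQ.gc_deriv x v)
    have h3 : (fun s => g (BQ.gc x v s)) = fun _ => 0 := by
      funext s
      apply h0
      simp [bM, BQ.gc_norm hxn hv hxv s]
    rw [h3] at h1
    exact h1.unique (hasDerivAt_const _ _)
  have htan : ∀ v : E n, ⟪x, v⟫ = 0 → g' v = 0 := by
    intro v hxv
    by_cases hv : v = 0
    · rw [hv, map_zero]
    · have hvn : ‖v‖ ≠ 0 := norm_ne_zero_iff.2 hv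
      have h1 := hunit ((‖v‖)⁻¹ • v) (by rw [norm_smul, norm_inv, norm_norm, inv_mul_cancel₀ hvn])
        (by rw [inner_smul_right, hxv, mul_zero])
      rw [map_smul] at h1
      exact (smul_eq_zero.1 h1).resolve_left (inv_ne_zero hvn)
  have h1 : w = (⟪x, w⟫ : ℝ) • x + (w - (⟪x, w⟫ : ℝ) • x) := by abel
  have h2 : ⟪x, w - (⟪x, w⟫ : ℝ) • x⟫ = 0 := by
    rw [inner_sub_right, inner_smul_right, real_inner_self_eq_norm_sq, hxn]
    ring
  rw [h1, map_add, htan _ h2, add_zero, map_smul, ← h1, Complex.real_smul]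

/-- spherical shells are connected -/
lemma shell_conn (hn : 2 ≤ n) (δ : ℝ) : IsPreconnected {x : E n | 1 < ‖x‖ ∧ ‖x‖ < 1 + δ} := by
  have hr : 1 < Module.rank ℝ (E n) := by
    rw [← Module.finrank_eq_rank, finrank_euclideanSpace_fin]
    exact_mod_cast (by omega : 1 < n)
  have h1 : IsPreconnected (Metric.sphere (0 : E n) 1) := isPreconnected_sphere hr 0 1
  have h2 : IsPreconnected (Metric.sphere (0 : E n) 1 ×ˢ Ioo (1 : ℝ) (1 + δ)) :=
    h1.prod isPreconnected_Ioo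
  have h3 := h2.image (fun p : E n × ℝ => p.2 • p.1) (by fun_prop)
  convert h3 using 1
  ext x
  simp only [mem_ofPred_eq, mem_image, mem_prod, mem_sphere_zero_iff_norm, mem_Ioo, Prod.exists]
  constructor
  · rintro ⟨hx1, hx2⟩
    have hx0 : ‖x‖ ≠ 0 := by linarith
    refine ⟨(‖x‖)⁻¹ • x, ‖x‖, ⟨?_, hx1, hx2⟩, ?_⟩
    · rw [norm_smul, norm_inv, norm_norm, inv_mul_cancel₀ hx0]
    · rw [smul_smul, mul_inv_cancel₀ hx0, one_smul]
  · rintro ⟨y, t, ⟨hy, ht1, ht2⟩, rfl⟩
    rw [norm_smul, hy, mul_one, Real.norm_eq_abs, abs_of_pos (by linarith)]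
    exact ⟨ht1, ht2⟩

end Htg

open Htg

/-- MODULE C7 (`hartogs`): holomorphic extension from the boundary, `C¹` up to the boundary. -/
theorem hartogs (hm : 2 ≤ m) (hnm : n = 2 * m) {Φ : E n → Cn m} {R : Cn m → E n} {δ : ℝ}
    (hΦ : ExtChart Φ R δ) (u : E n → ℂ) (hu : ContDiff ℝ ∞ u) (hub : ∀ x ∈ bM n, HolAt Φ u x) :
    ∃ U : E n → ℂ, ContDiff ℝ 1 U ∧ (∀ x ∈ bM n, U x = u x ∧ fderiv ℝ U x = fderiv ℝ u x) ∧
      ∀ x ∈ M n, HolAt Φ U x := by
  have hδ := hΦ.pos
  have hball : ∀ {x : E n}, x ∈ M n → x ∈ Metric.ball (0 : E n) (1 + δ) := fun hx => hΦ.mem_of_M hx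
  set K : Set (Cn m) := Φ '' M n with hKdef
  set S : Set (Cn m) := Φ '' bM n with hSdef
  have hMc : IsCompact (M n) := isCompact_closedBall _ _
  have hKc : IsCompact K := hMc.image hΦ.smooth.continuous
  have hKcl : IsClosed K := hKc.isClosed
  set uh : Cn m → ℂ := fun z => u (R z) with huh
  have huhs : ContDiff ℝ ∞ uh := hu.comp hΦ.smoothR
  have hud : ∀ x, HasFDerivAt u (fderiv ℝ u x) x := fun x =>
    ((hu.differentiable (by simp)) x).hasFDerivAt
  have huhd : ∀ x ∈ M n, fderiv ℝ uh (Φ x) = (fderiv ℝ u x).comp (fderiv ℝ R (Φ x)) := by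
    intro x hx
    have h1 : HasFDerivAt u (fderiv ℝ u x) (R (Φ x)) := by
      rw [hΦ.left x (hball hx)]; exact hud x
    exact (h1.comp (Φ x) (hΦ.dR (Φ x))).fderiv
  -- step 1: correction of the second order jet
  have hNs : ContDiff ℝ ∞ (fun z => fderiv ℝ Φ (R z) (R z)) := by
    have h1 : ContDiff ℝ ∞ (fderiv ℝ Φ) := hΦ.smooth.fderiv_right (by simp)
    exact (h1.comp hΦ.smoothR).clm_apply hΦ.smoothR
  have hrs : ContDiff ℝ ∞ (fun z => (‖R z‖ ^ 2 - 1) / 2) :=
    ((hΦ.smoothR.norm_sq ℝ).sub contDiff_const).div_const 2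
  have hrd : ∀ z, fderiv ℝ (fun z => (‖R z‖ ^ 2 - 1) / 2) z =
      (innerSL ℝ (R z)).comp (fderiv ℝ R z) := fun z => (hasFDerivAt_r (hΦ.dR z)).fderiv
  obtain ⟨u', hu's, hu'S⟩ := second_order (fun z => (‖R z‖ ^ 2 - 1) / 2)
    (fun z => fderiv ℝ Φ (R z) (R z)) uh S hrs hNs huhs
    (by
      rintro z ⟨x, hx, rfl⟩
      have hxn : ‖x‖ = 1 := by simpa [bM] using hx
      show (‖R (Φ x)‖ ^ 2 - 1) / 2 = 0
      rw [hΦ.left x (hball (bM_sub_M hx)), hxn]
      norm_num)
    (by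
      rintro z ⟨x, hx, rfl⟩
      have hxn : ‖x‖ = 1 := by simpa [bM] using hx
      rw [hrd, ContinuousLinearMap.comp_apply, innerSL_apply_apply,
        hΦ.left x (hball (bM_sub_M hx)), hΦ.left_deriv (hball (bM_sub_M hx)),
        real_inner_self_eq_norm_sq, hxn]
      norm_num)
    (by
      rintro g hg hg0 z ⟨x, hx, rfl⟩ v
      have hxb := hball (bM_sub_M hx)
      have h1 : HasFDerivAt (fun y => g (Φ y)) ((fderiv ℝ g (Φ x)).comp (fderiv ℝ Φ x)) x :=
        ((hg.differentiable (by simp)) (Φ x)).hasFDerivAt.comp x (hΦ.dΦ x)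
      have h2 := tangential hx h1 (fun y hy => hg0 _ ⟨y, hy, rfl⟩) (fderiv ℝ R (Φ x) v)
      rw [ContinuousLinearMap.comp_apply, ContinuousLinearMap.comp_apply,
        hΦ.right_deriv' hxb] at h2
      rw [h2, hrd, ContinuousLinearMap.comp_apply, innerSL_apply_apply, hΦ.left x hxb])
    (by
      rintro z ⟨x, hx, rfl⟩ v
      have hxM := bM_sub_M hx
      obtain ⟨A, hA⟩ := hub x hx
      rw [huhd x hxM, ContinuousLinearMap.comp_apply, ContinuousLinearMap.comp_apply, hA, hA,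
        hΦ.right_deriv' (hball hxM), hΦ.right_deriv' (hball hxM), map_smul, smul_eq_mul])
  -- step 2: the form
  set g0 : Cn m → Cn m →L[ℝ] ℂ := fun z =>
    fderiv ℝ u' z + Complex.I • (fderiv ℝ u' z).comp (mulI m) with hg0
  have hg0v : ∀ z v, g0 z v = fderiv ℝ u' z v + Complex.I * fderiv ℝ u' z (Complex.I • v) :=
    fun z v => rfl
  have hDu's : ContDiff ℝ ∞ (fderiv ℝ u') := hu's.fderiv_right (by simp)
  have hg0s : ContDiff ℝ ∞ g0 := by
    refine hDu's.add (ContDiff.const_smul Complex.I ?_)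
    exact hDu's.clm_comp contDiff_const
  have hg0d : ∀ z w v, fderiv ℝ g0 z w v = fderiv ℝ (fderiv ℝ u') z w v +
      Complex.I * fderiv ℝ (fderiv ℝ u') z w (Complex.I • v) := by
    intro z w v
    have h1 : HasFDerivAt (fderiv ℝ u') (fderiv ℝ (fderiv ℝ u') z) z :=
      ((hDu's.differentiable (by simp)) z).hasFDerivAt
    have h2 : HasFDerivAt g0 (fderiv ℝ g0 z) z :=
      ((hg0s.differentiable (by simp)) z).hasFDerivAt
    have h3 : HasFDerivAt (fun y => g0 y v) ((fderiv ℝ g0 z).flip v) z := eval_fderiv h2 v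
    have h4 : HasFDerivAt (fun y => g0 y v) ((fderiv ℝ (fderiv ℝ u') z).flip v +
        Complex.I • (fderiv ℝ (fderiv ℝ u') z).flip (Complex.I • v)) z := by
      have e1 : HasFDerivAt (fun y => fderiv ℝ u' y v) ((fderiv ℝ (fderiv ℝ u') z).flip v) z :=
        eval_fderiv h1 v
      have e2 : HasFDerivAt (fun y => fderiv ℝ u' y (Complex.I • v))
          ((fderiv ℝ (fderiv ℝ u') z).flip (Complex.I • v)) z := eval_fderiv h1 _
      exact e1.add (e2.const_smul Complex.I)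
    have h5 := congrArg (fun A : Cn m →L[ℝ] ℂ => A w) (h3.unique h4)
    simpa using h5
  have hfr : frontier K ⊆ S := by
    intro z hz
    rw [hKcl.frontier_eq] at hz
    obtain ⟨⟨x, hx, rfl⟩, hz⟩ := hz
    refine ⟨x, ?_, rfl⟩
    by_contra hxb
    apply hz
    have hx1 : x ∈ Metric.ball (0 : E n) 1 := by
      have h1 : ‖x‖ ≤ 1 := by simpa [M] using hx
      have h2 : ‖x‖ ≠ 1 := fun h => hxb (by simpa [bM] using h)
      rw [mem_ball_zero_iff]
      exact lt_of_le_of_ne h1 h2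
    have hop : IsOpen (Φ '' Metric.ball (0 : E n) 1) :=
      hΦ.isOpen_image Metric.isOpen_ball (Metric.ball_subset_ball (by linarith))
    exact interior_maximal (image_mono Metric.ball_subset_closedBall) hop ⟨x, hx1, rfl⟩
  have hS0 : ∀ z ∈ S, g0 z = 0 ∧ fderiv ℝ g0 z = 0 := by
    intro z hz
    obtain ⟨h1, h2, h3⟩ := hu'S z hz
    obtain ⟨x, hx, rfl⟩ := hz
    have hxM := bM_sub_M hx
    constructor
    · ext1 v
      rw [hg0v, h2]
      obtain ⟨A, hA⟩ := hub x hx
      rw [huhd x hxM, ContinuousLinearMap.comp_apply, ContinuousLinearMap.comp_apply, hA, hA,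
        hΦ.right_deriv' (hball hxM), hΦ.right_deriv' (hball hxM), map_smul, smul_eq_mul,
        ← mul_assoc, Complex.I_mul_I]
      simp
    · ext1 w
      ext1 v
      rw [hg0d]
      have h4 := congrArg (fun A : Cn m →L[ℝ] ℂ => A w) (h3 v)
      have h5 : HasFDerivAt (fderiv ℝ u') (fderiv ℝ (fderiv ℝ u') (Φ x)) (Φ x) :=
        ((hDu's.differentiable (by simp)) _).hasFDerivAt
      have e1 : HasFDerivAt (fun y => fderiv ℝ u' y v)
          ((fderiv ℝ (fderiv ℝ u') (Φ x)).flip v) (Φ x) := eval_fderiv h5 v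
      have e2 : HasFDerivAt (fun y => fderiv ℝ u' y (Complex.I • v))
          ((fderiv ℝ (fderiv ℝ u') (Φ x)).flip (Complex.I • v)) (Φ x) := eval_fderiv h5 _
      have e3 := (e2.sub (e1.const_mul Complex.I)).fderiv
      have e4 : (fun y => fderiv ℝ u' y (Complex.I • v) - Complex.I * fderiv ℝ u' y v) =
        ((fun y => fderiv ℝ u' y (Complex.I • v)) - fun y => Complex.I * fderiv ℝ u' y v) := rfl
      rw [e4, e3] at h4
      have h6 : fderiv ℝ (fderiv ℝ u') (Φ x) w (Complex.I • v) -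
          Complex.I * fderiv ℝ (fderiv ℝ u') (Φ x) w v = 0 := by simpa using h4
      have h7 : fderiv ℝ (fderiv ℝ u') (Φ x) w (Complex.I • v) =
          Complex.I * fderiv ℝ (fderiv ℝ u') (Φ x) w v := sub_eq_zero.1 h6
      rw [h7, ← mul_assoc, Complex.I_mul_I]
      simp
  obtain ⟨hfC, hfd⟩ := zext hKcl (hg0s.of_le (by simp)) fun z hz => hS0 z (hfr hz)
  set f : Cn m → Cn m →L[ℝ] ℂ := indicator K g0 with hf
  have hfsupp : HasCompactSupport f := by
    refine HasCompactSupport.intro hKc ?_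
    intro z hz
    exact indicator_of_notMem hz _
  have hsym : ∀ z v w, fderiv ℝ (fderiv ℝ u') z v w = fderiv ℝ (fderiv ℝ u') z w v := by
    intro z v w
    have h1 : IsSymmSndFDerivAt ℝ u' z :=
      (hu's.contDiffAt (x := z)).isSymmSndFDerivAt (by
        rw [minSmoothness_of_isRCLikeNormedField]; exact WithTop.coe_le_coe.2 le_top)
    exact h1 v w
  have hcl : ∀ z v w, fderiv ℝ f z v w + Complex.I * fderiv ℝ f z (Complex.I • v) w =
      fderiv ℝ f z w v + Complex.I * fderiv ℝ f z (Complex.I • w) v := by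
    intro z v w
    rw [hfd]
    by_cases hz : z ∈ K
    · rw [indicator_of_mem hz, hg0d, hg0d, hg0d, hg0d, hsym z w v, hsym z w (Complex.I • v),
        hsym z (Complex.I • w) v, hsym z (Complex.I • w) (Complex.I • v)]
      ring
    · rw [indicator_of_notMem hz]
      simp
  obtain ⟨w, hwC, hwd, hw0⟩ := dbar_solve (⟨0, by omega⟩ : Fin m) f hfC hfsupp hcl
  have hwdiff : ∀ z, HasFDerivAt w (fderiv ℝ w z) z := fun z =>
    ((hwC.differentiable (by simp)) z).hasFDerivAt
  -- step 3: `w` is holomorphic off `K`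
  have hwhol : DifferentiableOn ℂ w Kᶜ := by
    intro z hz
    have h1 : ∀ v, fderiv ℝ w z (Complex.I • v) = Complex.I * fderiv ℝ w z v := by
      intro v
      have h2 := hwd z v
      rw [hf, indicator_of_notMem hz] at h2
      have h3 : fderiv ℝ w z v + Complex.I * fderiv ℝ w z (Complex.I • v) = 0 := by simpa using h2
      have h4 : Complex.I * (fderiv ℝ w z v + Complex.I * fderiv ℝ w z (Complex.I • v)) = 0 := by
        rw [h3, mul_zero]
      rw [mul_add, ← mul_assoc, Complex.I_mul_I, neg_one_mul, ← sub_eq_add_neg] at h4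
      exact (sub_eq_zero.1 h4).symm
    obtain ⟨A, hA⟩ := exists_complex _ h1
    have h2 : fderiv ℝ w z = A.restrictScalars ℝ := by
      ext1 v
      exact (hA v).symm
    have h3 := hwdiff z
    rw [h2] at h3
    exact (hasFDerivAt_of_restrictScalars ℝ h3 rfl).differentiableAt.differentiableWithinAt
  -- the collar
  set Co : Set (Cn m) := Φ '' {x | 1 < ‖x‖ ∧ ‖x‖ < 1 + δ} with hCo
  have hannopen : IsOpen {x : E n | 1 < ‖x‖ ∧ ‖x‖ < 1 + δ} :=
    (isOpen_lt continuous_const continuous_norm).inter (isOpen_lt continuous_norm continuous_const)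
  have hannsub : {x : E n | 1 < ‖x‖ ∧ ‖x‖ < 1 + δ} ⊆ Metric.ball (0 : E n) (1 + δ) := by
    intro x hx
    rw [mem_ball_zero_iff]
    exact hx.2
  have hCoopen : IsOpen Co := hΦ.isOpen_image hannopen hannsub
  have hCoK : Co ⊆ Kᶜ := by
    rintro z ⟨x, hx, rfl⟩ ⟨y, hy, hxy⟩
    have h1 : x = y := by
      rw [← hΦ.left x (hannsub hx), ← hΦ.left y (hball hy), hxy]
    have h2 : ‖y‖ ≤ 1 := by simpa [M] using hy
    rw [← h1] at h2
    exact absurd hx.1 (not_lt.2 h2)
  have hCoconn : IsPreconnected Co := by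
    have h1 : IsPreconnected {x : E n | 1 < ‖x‖ ∧ ‖x‖ < 1 + δ} := shell_conn (by omega) δ
    exact h1.image _ hΦ.smooth.continuous.continuousOn
  -- the half space
  obtain ⟨zs, hzs, hmax⟩ := hKc.exists_isMaxOn (f := fun z : Cn m => (z ⟨1, by omega⟩).re)
    ⟨Φ 0, 0, by simp [M], rfl⟩ (by fun_prop)
  set Hs : Set (Cn m) := {z | (zs ⟨1, by omega⟩).re < (z ⟨1, by omega⟩).re} with hHs
  have hHsopen : IsOpen Hs := isOpen_lt continuous_const (by fun_prop)
  have hHsK : ∀ z ∈ Hs, z ∉ K := by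
    intro z hz hzK
    have h1 : (z ⟨1, by omega⟩).re ≤ (zs ⟨1, by omega⟩).re := hmax hzK
    exact absurd h1 (not_le.2 hz)
  have hHsw : ∀ z ∈ Hs, w z = 0 := by
    intro z hz
    apply hw0
    intro ζ
    apply indicator_of_notMem
    apply hHsK
    show (zs ⟨1, by omega⟩).re <
      ((z + ζ • (Pi.single (⟨0, by omega⟩ : Fin m) 1 : Cn m) : Cn m) ⟨1, by omega⟩).re
    rw [Pi.add_apply, Pi.smul_apply, Pi.single_eq_of_ne (by simp [Fin.ext_iff]), smul_zero,
      add_zero]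
    exact hz
  have hOm : IsOpen (Φ '' Metric.ball (0 : E n) (1 + δ)) := hΦ.isOpen
  have hzsOm : zs ∈ Φ '' Metric.ball (0 : E n) (1 + δ) := by
    obtain ⟨x, hx, rfl⟩ := hzs
    exact ⟨x, hball hx, rfl⟩
  obtain ⟨z1, hz1Co, hz1Hs⟩ : ∃ z1, z1 ∈ Co ∧ z1 ∈ Hs := by
    have hcont : Tendsto (fun t : ℝ => zs + (t : ℂ) • Pi.single (⟨1, by omega⟩ : Fin m) (1 : ℂ))
        (𝓝[>] 0) (𝓝 zs) := by
      have h1 : ContinuousAt (fun t : ℝ => zs + (t : ℂ) •
          (Pi.single (⟨1, by omega⟩ : Fin m) (1 : ℂ) : Cn m)) 0 := by fun_prop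
      have h2 := h1.tendsto
      simp only [Complex.ofReal_zero, zero_smul, add_zero] at h2
      exact h2.mono_left nhdsWithin_le_nhds
    have h1 := hcont.eventually (hOm.mem_nhds hzsOm)
    obtain ⟨t, ht, htpos⟩ := (h1.and self_mem_nhdsWithin).exists
    have htp : 0 < t := htpos
    have hH : (zs + (t : ℂ) • Pi.single (⟨1, by omega⟩ : Fin m) (1 : ℂ)) ∈ Hs := by
      show (zs ⟨1, by omega⟩).re <
        ((zs + (t : ℂ) • (Pi.single (⟨1, by omega⟩ : Fin m) (1 : ℂ) : Cn m) : Cn m)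
          ⟨1, by omega⟩).re
      rw [Pi.add_apply, Pi.smul_apply, Pi.single_eq_same, smul_eq_mul, mul_one, Complex.add_re,
        Complex.ofReal_re]
      linarith
    refine ⟨_, ?_, hH⟩
    obtain ⟨x, hx, hxe⟩ := ht
    refine ⟨x, ⟨?_, by simpa using hx⟩, hxe⟩
    by_contra hcon
    apply hHsK _ hH
    rw [← hxe]
    exact ⟨x, by simpa [M] using hcon, rfl⟩
  have hwCo : ∀ z ∈ Co, w z = 0 :=
    id_thm hCoopen hCoconn (hwhol.mono hCoK) hz1Co
      (by filter_upwards [hHsopen.mem_nhds hz1Hs] with z hz using hHsw z hz)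
  have hwCo' : ∀ z ∈ Co, fderiv ℝ w z = 0 := by
    intro z hz
    have h1 : w =ᶠ[𝓝 z] fun _ => 0 := by
      filter_upwards [hCoopen.mem_nhds hz] with y hy using hwCo y hy
    rw [h1.fderiv_eq]
    simp
  have hwS : ∀ z ∈ S, w z = 0 ∧ fderiv ℝ w z = 0 := by
    rintro z ⟨x, hx, rfl⟩
    have hxn : ‖x‖ = 1 := by simpa [bM] using hx
    have htend : Tendsto (fun t : ℝ => Φ ((1 + t) • x)) (𝓝[>] 0) (𝓝 (Φ x)) := by
      have h1 : ContinuousAt (fun t : ℝ => Φ ((1 + t) • x)) 0 := by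
        have := hΦ.smooth.continuous
        fun_prop
      have h2 := h1.tendsto
      simp only [add_zero, one_smul] at h2
      exact h2.mono_left nhdsWithin_le_nhds
    have hmem : ∀ᶠ t : ℝ in 𝓝[>] 0, Φ ((1 + t) • x) ∈ Co := by
      filter_upwards [Ioo_mem_nhdsGT hδ] with t ht
      refine ⟨(1 + t) • x, ?_, rfl⟩
      have h1 : ‖(1 + t) • x‖ = 1 + t := by
        rw [norm_smul, hxn, mul_one, Real.norm_eq_abs, abs_of_pos (by linarith [ht.1])]
      simp only [mem_ofPred_eq, h1]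
      constructor
      · linarith [ht.1]
      · linarith [ht.2]
    constructor
    · have h1 : Tendsto (fun t : ℝ => w (Φ ((1 + t) • x))) (𝓝[>] 0) (𝓝 (w (Φ x))) :=
        (hwC.continuous.tendsto _).comp htend
      have h2 : Tendsto (fun t : ℝ => w (Φ ((1 + t) • x))) (𝓝[>] 0) (𝓝 0) := by
        refine tendsto_const_nhds.congr' ?_
        filter_upwards [hmem] with t ht using (hwCo _ ht).symm
      exact tendsto_nhds_unique h1 h2
    · have h1 : Tendsto (fun t : ℝ => fderiv ℝ w (Φ ((1 + t) • x))) (𝓝[>] 0)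
          (𝓝 (fderiv ℝ w (Φ x))) :=
        ((hwC.continuous_fderiv (by simp)).tendsto _).comp htend
      have h2 : Tendsto (fun t : ℝ => fderiv ℝ w (Φ ((1 + t) • x))) (𝓝[>] 0) (𝓝 0) := by
        refine tendsto_const_nhds.congr' ?_
        filter_upwards [hmem] with t ht using (hwCo' _ ht).symm
      exact tendsto_nhds_unique h1 h2
  -- step 4: the extension
  have hu'd : ∀ z, HasFDerivAt u' (fderiv ℝ u' z) z := fun z =>
    ((hu's.differentiable (by simp)) z).hasFDerivAt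
  have hUd : ∀ x, HasFDerivAt (fun x => u' (Φ x) - w (Φ x))
      ((fderiv ℝ u' (Φ x) - fderiv ℝ w (Φ x)).comp (fderiv ℝ Φ x)) x := by
    intro x
    exact ((hu'd (Φ x)).sub (hwdiff (Φ x))).comp x (hΦ.dΦ x)
  refine ⟨fun x => u' (Φ x) - w (Φ x), ?_, ?_, ?_⟩
  · exact ((hu's.of_le (by simp)).comp (hΦ.smooth.of_le (by simp))).sub
      (hwC.comp (hΦ.smooth.of_le (by simp)))
  · intro x hx
    have hxM := bM_sub_M hx
    obtain ⟨e1, e2⟩ := hwS (Φ x) ⟨x, hx, rfl⟩
    obtain ⟨e3, e4, _⟩ := hu'S (Φ x) ⟨x, hx, rfl⟩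
    constructor
    · show u' (Φ x) - w (Φ x) = u x
      rw [e1, e3, sub_zero, huh]
      show u (R (Φ x)) = u x
      rw [hΦ.left x (hball hxM)]
    · rw [(hUd x).fderiv, e2, e4, sub_zero, huhd x hxM]
      ext1 v
      simp only [ContinuousLinearMap.comp_apply]
      rw [hΦ.left_deriv (hball hxM)]
  · intro x hx
    have h1 : ∀ v, (fderiv ℝ u' (Φ x) - fderiv ℝ w (Φ x)) (Complex.I • v) =
        Complex.I * (fderiv ℝ u' (Φ x) - fderiv ℝ w (Φ x)) v := by
      intro v
      have h2 := hwd (Φ x) v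
      rw [hf, indicator_of_mem (show Φ x ∈ K from ⟨x, hx, rfl⟩), hg0v] at h2
      simp only [_root_.sub_apply]
      have h3 : Complex.I * Complex.I = -1 := Complex.I_mul_I
      linear_combination Complex.I * h2 +
        (fderiv ℝ u' (Φ x) (Complex.I • v) - fderiv ℝ w (Φ x) (Complex.I • v)) * h3
    obtain ⟨A, hA⟩ := exists_complex _ h1
    refine ⟨A, fun v => ?_⟩
    rw [(hUd x).fderiv, hA]
    rfl

end KBR
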